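import Pool.Agent.H126T.Main

/-! The main theorem on products of quadratic twists of hyperelliptic curves. -/

set_option autoImplicit false

namespace Pool.Agent.H126T

open NumberField IsDedekindDomain Pool.Agent.H341R2 Pool.Agent.H341R2.EC
open Pool.Agent.H921R2.TatePole (nm two_le_nm)
open Complex Filter Topology Polynomial ComplexConjugate

variable {K : Type} [Field K] [NumberField K]

open Classical in
/-- the Euler product -/
noncomputable def L2 {r : ℕ} (f : Fin r → (𝓞 K)[X]) (d : Fin r → 𝓞 K)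
    (S : Finset (HeightOneSpectrum (𝓞 K))) (B : HeightOneSpectrum (𝓞 K) → ℂ[X]) (s : ℂ) : ℂ :=
  ∏' v : HeightOneSpectrum (𝓞 K),
    if v ∈ S then ((B v).eval (((nm v : ℕ) : ℂ) ^ (-s)))⁻¹
    else Complex.exp (∑' m : ℕ, (traceH2 v f d (m + 1) : ℂ) *
      ((nm v : ℕ) : ℂ) ^ (-((m + 1 : ℂ) * s)) / (m + 1 : ℂ))

theorem aa_bad {r : ℕ} (f : Fin r → (𝓞 K)[X]) (d : Fin r → 𝓞 K)
    (S : Finset (HeightOneSpectrum (𝓞 K))) (τ : ℝ) {v : HeightOneSpectrum (𝓞 K)}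
    (hv : ¬ v ∉ S) : aa f d S τ v = 0 := by
  unfold aa
  rw [if_neg hv]

theorem aa_good {r : ℕ} (f : Fin r → (𝓞 K)[X]) (d : Fin r → 𝓞 K)
    (S : Finset (HeightOneSpectrum (𝓞 K))) (τ ε : ℝ) {v : HeightOneSpectrum (𝓞 K)}
    (hv : v ∉ S) : aa f d S τ v * (((nm v : ℝ) ^ (-(1 + ε)) : ℝ) : ℂ) =
      (traceH2 v f d 1 : ℂ) * ((nm v : ℕ) : ℂ) ^ (-((2 : ℂ) + τ * I + ε)) := by
  have h0 : ((nm v : ℕ) : ℂ) ≠ 0 := (sysK K).N_ne v
  unfold aa
  rw [if_pos hv, Complex.ofReal_cpow (nm_pos' v).le]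
  push_cast
  rw [mul_assoc, mul_assoc, ← Complex.cpow_neg_one, ← Complex.cpow_add _ _ h0,
    ← Complex.cpow_add _ _ h0]
  congr 2
  ring

theorem L2_eq {r : ℕ} (f : Fin r → (𝓞 K)[X]) (d : Fin r → 𝓞 K)
    (S : Finset (HeightOneSpectrum (𝓞 K))) (B : HeightOneSpectrum (𝓞 K) → ℂ[X]) (s : ℂ)
    [DecidablePred fun v : HeightOneSpectrum (𝓞 K) => v ∉ S] :
    L2 f d S B s = ∏' v : HeightOneSpectrum (𝓞 K), if v ∉ S then
      cexp (∑' m : ℕ, (traceH2 v f d (m + 1) : ℂ) *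
      ((nm v : ℕ) : ℂ) ^ (-((m + 1 : ℂ) * s)) / (m + 1 : ℂ)) else
      ((B v).eval (((nm v : ℕ) : ℂ) ^ (-s)))⁻¹ := by
  unfold L2
  refine tprod_congr fun v => ?_
  by_cases hv : v ∈ S
  · rw [if_pos hv, if_neg (not_not.2 hv)]
  · rw [if_neg hv, if_pos hv]

theorem L2_log {r : ℕ} {f : Fin r → (𝓞 K)[X]} (hodd : ∀ i, Odd (f i).natDegree)
    (h3 : ∀ i, 3 ≤ (f i).natDegree) {d : Fin r → 𝓞 K} {S : Finset (HeightOneSpectrum (𝓞 K))}
    (hS : ∀ v, v ∉ S → Gd f d v) (B : HeightOneSpectrum (𝓞 K) → ℂ[X]) (τ : ℝ)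
    (hB : ∀ v ∈ S, (B v).eval (((nm v : ℕ) : ℂ) ^ (-((2 : ℂ) + τ * I))) ≠ 0) :
    ∃ C' : ℝ, ∀ᶠ ε : ℝ in 𝓝[>] 0, L2 f d S B (2 + τ * I + ε) ≠ 0 ∧
      |(sysK K).E ε (fun v => (aa f d S τ v).re) - Real.log ‖L2 f d S B (2 + τ * I + ε)‖| ≤ C' := by
  let inst : DecidablePred fun v : HeightOneSpectrum (𝓞 K) => v ∉ S :=
    fun v => Classical.propDecidable _
  set ρ : ℂ := (2 : ℂ) + τ * I with hρ
  have hρre : ρ.re = 2 := by rw [hρ]; simp
  set Bt := ∑ p ∈ pairs r, bb f p with hBt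
  have hb : 0 ≤ Bt := Finset.sum_nonneg fun p _ => (bb_pos h3 p).le
  have hfin : {v : HeightOneSpectrum (𝓞 K) | ¬ v ∉ S}.Finite := by
    refine S.finite_toSet.subset fun v hv => ?_
    simpa using hv
  have h := log_norm (sysK K) (Good := fun v => v ∉ S) (hdec := inst) hfin B ρ
    (fun v hv => hB v (not_not.1 hv)) (aa f d S τ) (K := r + Bt)
    (fun v => norm_aa hodd h3 hS τ v)
    (fun v hv => aa_bad f d S τ hv)
    (fun ε v => ∑' m : ℕ, (traceH2 v f d (m + 1) : ℂ) *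
      ((nm v : ℕ) : ℂ) ^ (-((m + 1 : ℂ) * (ρ + ε))) / (m + 1 : ℂ)) (C := 2 * (r + Bt)) (by
      intro ε hε v hv
      have h0 : ((nm v : ℕ) : ℂ) ≠ 0 := (sysK K).N_ne v
      have hq := nm_pos' v
      have hsre : (ρ + ε : ℂ).re = 2 + ε := by
        rw [Complex.add_re, hρre, Complex.ofReal_re]
      have h1 := (sysK K).goodLog_bound (fun m => (traceH2 v f d m : ℂ)) (r + Bt) 1
        (by positivity) v (by
          intro m
          have h2 := traceH2_bound hodd h3 (hS v hv) (m + 1) (by omega)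
          rw [Complex.norm_intCast, Real.rpow_one]
          exact h2) (ρ + ε) (by rw [hsre]; linarith)
      have h4 := aa_good f d S τ ε hv
      rw [← hρ] at h4
      have h5 : ‖(∑' m : ℕ, (traceH2 v f d (m + 1) : ℂ) *
          ((nm v : ℕ) : ℂ) ^ (-((m + 1 : ℂ) * (ρ + ε))) / (m + 1 : ℂ)) -
          (traceH2 v f d 1 : ℂ) * ((nm v : ℕ) : ℂ) ^ (-(ρ + ε))‖ ≤
          2 * (r + Bt) * (nm v : ℝ) ^ (-2 : ℝ) := h1
      rw [← h4] at h5
      exact h5)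
  obtain ⟨C', hC'⟩ := h
  refine ⟨C', ?_⟩
  filter_upwards [hC'] with ε hε
  rw [@L2_eq K _ _ r f d S B (ρ + ε) inst]
  exact hε

theorem main {r : ℕ} (f : Fin r → (𝓞 K)[X]) (hodd : ∀ i, Odd (f i).natDegree)
    (h3 : ∀ i, 3 ≤ (f i).natDegree) {κ : Type} (T : Finset κ) (d : κ → Fin r → 𝓞 K) (τ : κ → ℝ)
    (hd0 : ∀ k ∈ T, ∀ i, d k i ≠ 0)
    (hsep : ∀ k ∈ T, ∀ l ∈ T, k ≠ l → ∀ i j, i < j →
      IsSquare ((d k i * d k j * d l i * d l j : 𝓞 K) : K) → τ k ≠ τ l)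
    (S : κ → Finset (HeightOneSpectrum (𝓞 K)))
    (hS : ∀ k ∈ T, ∀ v, v ∉ S k → ∀ i, 2 * d k i * (f i).leadingCoeff ∉ v.asIdeal)
    (B : κ → HeightOneSpectrum (𝓞 K) → ℂ[X])
    (hB : ∀ k ∈ T, ∀ v ∈ S k, ∀ s : ℂ, s.re = 2 →
      (B k v).eval (((nm v : ℕ) : ℂ) ^ (-s)) ≠ 0) (N : ℕ)
    (hN : N = ∑ p ∈ pairs r, ((f p.1).natDegree - 1) * ((f p.2).natDegree - 1)) :
    (∀ η : ℝ, 0 < η → ∀ᶠ ε : ℝ in 𝓝[>] 0,
      ∑ k ∈ T, (Real.log ‖L2 f (d k) (S k) (B k) (2 + τ k * I + ε)‖ / Real.log (1 / ε) -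
        if τ k = 0 then (r : ℝ) else 0) ^ 2 ≤ (N : ℝ) ^ 2 + η) ∧
    (∀ Λ : κ → ℂ → ℂ, (∀ k ∈ T, MeromorphicAt (Λ k) (2 + τ k * I) ∧
      ∀ᶠ s in 𝓝 ((2 : ℂ) + τ k * I), 2 < s.re → Λ k s = L2 f (d k) (S k) (B k) s) →
      ∃ m : κ → ℤ, (∀ k ∈ T, meromorphicOrderAt (Λ k) (2 + τ k * I) = m k) ∧
        ∑ k ∈ T, (m k + if τ k = 0 then (r : ℤ) else 0) ^ 2 ≤ (N : ℤ) ^ 2) := by
  classical
  have hNb : (N : ℝ) = ∑ p ∈ pairs r, bb f p := by
    rw [hN]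
    push_cast
    refine Finset.sum_congr rfl fun p _ => ?_
    unfold bb
    rw [Nat.cast_sub (by have := h3 p.1; omega), Nat.cast_sub (by have := h3 p.2; omega)]
    push_cast
    ring
  have hG : ∀ k ∈ T, ∀ v, v ∉ S k → Gd f (d k) v := by
    intro k hk v hv i
    have h := hS k hk v hv i
    refine ⟨fun h2 => h ?_, fun h2 => h ?_, fun h2 => h ?_⟩
    · rw [mul_assoc]
      exact v.asIdeal.mul_mem_right _ h2
    · rw [mul_right_comm]
      exact v.asIdeal.mul_mem_left _ h2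
    · exact v.asIdeal.mul_mem_left _ h2
  have hlog : ∀ k ∈ T, ∃ C' : ℝ, ∀ᶠ ε : ℝ in 𝓝[>] 0,
      L2 f (d k) (S k) (B k) (2 + τ k * I + ε) ≠ 0 ∧
      |(sysK K).E ε (fun v => (aa f (d k) (S k) (τ k) v).re) -
        Real.log ‖L2 f (d k) (S k) (B k) (2 + τ k * I + ε)‖| ≤ C' := fun k hk =>
    L2_log hodd h3 (hG k hk) (B k) (τ k) fun v hv => hB k hk v hv _ (by simp)
  have hmean : ∀ η : ℝ, 0 < η → ∀ᶠ ε : ℝ in 𝓝[>] 0,
      ∑ k ∈ T, (Real.log ‖L2 f (d k) (S k) (B k) (2 + τ k * I + ε)‖ / Real.log (1 / ε) -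
        if τ k = 0 then (r : ℝ) else 0) ^ 2 ≤ (N : ℝ) ^ 2 + η := by
    intro η hη
    rw [hNb]
    exact final_bound (sysK K) T (pairs r) (tt f) (fun p k => ww (d k) (τ k) p) (bb f)
      (fun p _ => bb_pos h3 p) (fun p _ v => norm_tt hodd h3 p v)
      (fun p k v => norm_ww (d k) (τ k) p v)
      (fun p hp k hk l hl hkl => ww_orth (hd0 k hk) (hd0 l hl) p
        (hsep k hk l hl hkl p.1 p.2 (Finset.mem_filter.1 hp).2))
      (fun k ε => Real.log ‖L2 f (d k) (S k) (B k) (2 + τ k * I + ε)‖)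
      (fun k => if τ k = 0 then (r : ℝ) else 0) (by
        intro k hk η' hη'
        obtain ⟨C', hC'⟩ := hlog k hk
        filter_upwards [hC', mean_aa hodd h3 (hG k hk) (τ k) (half_pos hη'),
          (sysK K).lam_tendsto.eventually_ge_atTop (2 / η' * C')] with ε h1 h2 h4
        have e2 : C' ≤ η' / 2 * (sysK K).lam ε := by
          have := mul_le_mul_of_nonneg_left h4 (by positivity : 0 ≤ η' / 2)
          have e3 : η' / 2 * (2 / η' * C') = C' := by field_simp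
          rwa [e3] at this
        have e5 : ∀ x y w z l : ℝ, |x - y| ≤ η' / 2 * l → |x - w - z| ≤ η' / 2 * l →
            |y - w - z| ≤ η' * l := by
          intro x y w z l h5 h6
          have e6 : y - w - z = (x - w - z) + -(x - y) := by ring
          rw [e6]
          refine (abs_add_le _ _).trans ?_
          rw [abs_neg]
          linarith
        exact e5 _ _ _ _ _ (h1.2.trans e2) h2) hη
  refine ⟨hmean, ?_⟩
  intro Λ hΛ
  have hex : ∀ k, ∃ m : ℤ, k ∈ T → meromorphicOrderAt (Λ k) (2 + τ k * I) = m ∧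
      Tendsto (fun ε : ℝ => Real.log ‖L2 f (d k) (S k) (B k) (2 + τ k * I + ε)‖ /
        Real.log (1 / ε)) (𝓝[>] 0) (𝓝 (-(m : ℝ))) := by
    intro k
    by_cases hk : k ∈ T
    · obtain ⟨C', hC'⟩ := hlog k hk
      obtain ⟨m, h1, h2⟩ := order_limit (hΛ k hk).1
        (fun ε : ℝ => L2 f (d k) (S k) (B k) (2 + τ k * I + ε))
        (hC'.mono fun ε h => h.1) (by
          filter_upwards [(path_tendsto' (2 + τ k * I)).eventually (hΛ k hk).2,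
            self_mem_nhdsWithin] with ε h1 h2
          have hε : (0 : ℝ) < ε := h2
          exact h1 (by simp; linarith))
      exact ⟨m, fun _ => ⟨h1, h2⟩⟩
    · exact ⟨0, fun h => absurd h hk⟩
  choose m hm using hex
  refine ⟨m, fun k hk => (hm k hk).1, ?_⟩
  have hlim : Tendsto (fun ε : ℝ => ∑ k ∈ T,
      (Real.log ‖L2 f (d k) (S k) (B k) (2 + τ k * I + ε)‖ / Real.log (1 / ε) -
        if τ k = 0 then (r : ℝ) else 0) ^ 2) (𝓝[>] 0)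
      (𝓝 (∑ k ∈ T, (-(m k : ℝ) - if τ k = 0 then (r : ℝ) else 0) ^ 2)) :=
    tendsto_finsetSum T fun k hk => ((hm k hk).2.sub_const _).pow 2
  have hle : ∀ η : ℝ, 0 < η →
      ∑ k ∈ T, (-(m k : ℝ) - if τ k = 0 then (r : ℝ) else 0) ^ 2 ≤ (N : ℝ) ^ 2 + η :=
    fun η hη => le_of_tendsto hlim (hmean η hη)
  have hle2 := le_of_forall_pos_le_add hle
  have e1 : ((∑ k ∈ T, (m k + if τ k = 0 then (r : ℤ) else 0) ^ 2 : ℤ) : ℝ) =
      ∑ k ∈ T, (-(m k : ℝ) - if τ k = 0 then (r : ℝ) else 0) ^ 2 := by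
    push_cast
    refine Finset.sum_congr rfl fun k _ => ?_
    split_ifs <;> ring
  rw [← e1] at hle2
  exact_mod_cast hle2

end Pool.Agent.H126T
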