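import Pool.Agent.H341R2.WeilSharp
import Pool.Agent.H341R2.CurveFacts

/-! Points of hyperelliptic curves `d y² = f(x)` over the finite extensions of a finite field. -/

set_option autoImplicit false

namespace Pool.Agent.H126T

open Polynomial

/-- number of solutions of `d y² = f(x)` in the field with `|k|^m` elements inside an algebraic
closure of the finite field `k` -/
noncomputable def affPts (k : Type) [Field k] (f : k[X]) (d : k) (m : ℕ) : ℕ :=
  Nat.card {P : AlgebraicClosure k × AlgebraicClosure k //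
    P.1 ^ (Nat.card k ^ m) = P.1 ∧ P.2 ^ (Nat.card k ^ m) = P.2 ∧
    algebraMap k (AlgebraicClosure k) d * P.2 ^ 2 = aeval P.1 f}

section
variable {k : Type} [Field k] [Finite k]

theorem pow_mem_range {E Ω : Type} [Field E] [Finite E] [Field Ω] [Algebra E Ω] {x : Ω}
    (hx : x ^ Nat.card E = x) : ∃ y : E, algebraMap E Ω y = x := by
  classical
  let _ := Fintype.ofFinite E
  rw [Nat.card_eq_fintype_card] at hx
  have h1 : (X ^ Fintype.card E - X : E[X]).Splits := by
    rw [splits_iff_card_roots, FiniteField.roots_X_pow_card_sub_X,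
      FiniteField.X_pow_card_sub_X_natDegree_eq _ Fintype.one_lt_card]
    rfl
  have h2 : (X ^ Fintype.card E - X : E[X]) ≠ 0 :=
    FiniteField.X_pow_card_sub_X_ne_zero _ Fintype.one_lt_card
  have h3 : ((X ^ Fintype.card E - X : E[X]).map (algebraMap E Ω)).IsRoot x := by
    simp [hx]
  exact h1.mem_range_of_isRoot h2 h3

theorem affPts_eq (f : k[X]) (d : k) (m : ℕ) (E : Type) [Field E] [Finite E] [Algebra k E]
    (hE : Nat.card E = Nat.card k ^ m) :
    affPts k f d m = Nat.card {P : E × E // algebraMap k E d * P.2 ^ 2 = aeval P.1 f} := by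
  classical
  have : Module.Finite k E := Module.Finite.of_finite
  have : Algebra.IsAlgebraic k E := Algebra.IsAlgebraic.of_finite k E
  let g : E →ₐ[k] AlgebraicClosure k := IsAlgClosed.lift
  let _ : Algebra E (AlgebraicClosure k) := g.toRingHom.toAlgebra
  let _ := Fintype.ofFinite E
  have hg : ∀ x : E, algebraMap E (AlgebraicClosure k) x = g x := fun x => rfl
  have hfix : ∀ x : E, g x ^ (Nat.card k ^ m) = g x := by
    intro x
    rw [← map_pow, ← hE, Nat.card_eq_fintype_card, FiniteField.pow_card]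
  unfold affPts
  refine (Nat.card_congr (Equiv.ofBijective (fun P : {P : E × E //
    algebraMap k E d * P.2 ^ 2 = aeval P.1 f} => (⟨(g P.1.1, g P.1.2), hfix _, hfix _, by
      have := congrArg g P.2
      rw [map_mul, map_pow, AlgHom.commutes, ← Polynomial.aeval_algHom_apply] at this
      exact this⟩ : {P : AlgebraicClosure k × AlgebraicClosure k //
    P.1 ^ (Nat.card k ^ m) = P.1 ∧ P.2 ^ (Nat.card k ^ m) = P.2 ∧
    algebraMap k (AlgebraicClosure k) d * P.2 ^ 2 = aeval P.1 f})) ⟨?_, ?_⟩)).symm
  · rintro ⟨⟨x, y⟩, hP⟩ ⟨⟨x', y'⟩, hP'⟩ h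
    simp only [Subtype.mk.injEq, Prod.mk.injEq] at h
    apply Subtype.ext
    apply Prod.ext
    · exact g.toRingHom.injective h.1
    · exact g.toRingHom.injective h.2
  · rintro ⟨⟨x, y⟩, h1, h2, h3⟩
    simp only at h1 h2 h3
    rw [← hE] at h1 h2
    obtain ⟨a, ha⟩ := pow_mem_range (E := E) h1
    obtain ⟨b, hb⟩ := pow_mem_range (E := E) h2
    rw [hg] at ha hb
    refine ⟨⟨(a, b), ?_⟩, ?_⟩
    · apply g.toRingHom.injective
      change g (algebraMap k E d * b ^ 2) = g (aeval a f)
      rw [map_mul, map_pow, AlgHom.commutes, ← Polynomial.aeval_algHom_apply, ha, hb]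
      exact h3
    · apply Subtype.ext
      apply Prod.ext
      · exact ha
      · exact hb

end

section
variable {E : Type} [Field E] [Fintype E] [DecidableEq E]

theorem card_aff (hE : ringChar E ≠ 2) (g : E[X]) (d : E) (hd : d ≠ 0) :
    (Nat.card {P : E × E // d * P.2 ^ 2 = g.eval P.1} : ℤ) =
      Fintype.card E + quadraticChar E d * ∑ x : E, quadraticChar E (g.eval x) := by
  have h1 : Nat.card {P : E × E // d * P.2 ^ 2 = g.eval P.1} =
      ∑ x : E, Nat.card {z : E // d * z ^ 2 = g.eval x} := by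
    have e : {P : E × E // d * P.2 ^ 2 = g.eval P.1} ≃
        Σ x : E, {z : E // d * z ^ 2 = g.eval x} :=
      { toFun := fun P => ⟨P.1.1, P.1.2, P.2⟩
        invFun := fun P => ⟨(P.1, P.2.1), P.2.2⟩
        left_inv := fun P => rfl
        right_inv := fun P => rfl }
    rw [Nat.card_congr e, Nat.card_sigma]
  rw [h1]
  push_cast
  rw [Finset.sum_congr rfl fun x _ => H341R2.card_sqrt hE d (g.eval x) hd,
    Finset.sum_add_distrib, ← Finset.mul_sum]
  simp [add_comm]

end

section
variable {k : Type} [Field k] [Fintype k] [DecidableEq k]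

theorem exists_ext (m : ℕ) (hm : m ≠ 0) : ∃ (E : Type) (_ : Field E) (_ : Finite E)
    (_ : Algebra k E), Nat.card E = Nat.card k ^ m := by
  obtain ⟨p, hp⟩ := CharP.exists k
  have hpp : Fact p.Prime := ⟨CharP.char_is_prime k p⟩
  have : NeZero m := ⟨hm⟩
  exact ⟨FiniteField.Extension k p m, inferInstance, inferInstance, inferInstance,
    FiniteField.natCard_extension k p m⟩

/-- the bound for the traces of the powers of Frobenius -/
theorem trace_bound (hk : ringChar k ≠ 2) (f : k[X]) (hf : Odd f.natDegree) (d : k) (hd : d ≠ 0)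
    (m : ℕ) (hm : m ≠ 0) :
    |(((Nat.card k : ℤ) ^ m + 1 - (affPts k f d m + 1) : ℤ) : ℝ)| ≤
      (f.natDegree - 1) * Real.sqrt ((Nat.card k : ℝ) ^ m) := by
  classical
  obtain ⟨E, i1, i2, i3, hE⟩ := exists_ext (k := k) m hm
  let _ := Fintype.ofFinite E
  rw [affPts_eq f d m E hE]
  have hE2 : ringChar E ≠ 2 := by rwa [← Algebra.ringChar_eq k E]
  set g : E[X] := f.map (algebraMap k E) with hg
  have hgd : g.natDegree = f.natDegree := natDegree_map _
  have hd' : algebraMap k E d ≠ 0 := by
    rwa [Ne, FaithfulSMul.algebraMap_eq_zero_iff]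
  have e1 : {P : E × E // algebraMap k E d * P.2 ^ 2 = aeval P.1 f} =
      {P : E × E // algebraMap k E d * P.2 ^ 2 = g.eval P.1} := by
    congr 1
    funext P
    rw [hg, eval_map, aeval_def]
  rw [e1]
  have h1 := card_aff hE2 g (algebraMap k E d) hd'
  rw [← Nat.card_eq_fintype_card, hE] at h1
  have h2 : ((Nat.card k : ℤ) ^ m + 1 - ((Nat.card {P : E × E //
      algebraMap k E d * P.2 ^ 2 = g.eval P.1} : ℤ) + 1)) =
      -(quadraticChar E (algebraMap k E d) * ∑ x : E, quadraticChar E (g.eval x)) := by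
    rw [h1]
    push_cast
    ring
  rw [h2]
  push_cast
  rw [abs_neg, abs_mul]
  have h3 : |(quadraticChar E (algebraMap k E d) : ℝ)| = 1 := by
    rcases quadraticChar_dichotomy hd' with h | h <;> simp [h]
  rw [h3, one_mul]
  have h4 := H341R2.Sharp.weil_sharp hE2 g (by rw [hgd]; exact hf.pos) (by
    intro c h hgh
    have h5 : c ≠ 0 := by
      rintro rfl
      rw [C_0, zero_mul] at hgh
      rw [hgh, natDegree_zero] at hgd
      rw [← hgd] at hf
      exact absurd hf (by decide)
    have h6 : g.natDegree = 2 * h.natDegree := by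
      rw [hgh, natDegree_C_mul h5, natDegree_pow]
    rw [← hgd, h6] at hf
    exact (Nat.not_odd_iff_even.2 (even_two_mul _)) hf)
  rw [hgd, ← Nat.card_eq_fintype_card, hE] at h4
  push_cast at h4
  exact h4

/-- the trace at `m = 1` is a twist by the quadratic character -/
theorem trace_one (hk : ringChar k ≠ 2) (f : k[X]) (d : k) (hd : d ≠ 0) :
    ((Nat.card k : ℤ) ^ 1 + 1 - (affPts k f d 1 + 1) : ℤ) =
      -(quadraticChar k d * ∑ x : k, quadraticChar k (f.eval x)) := by
  rw [affPts_eq f d 1 k (by rw [pow_one])]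
  have e1 : {P : k × k // algebraMap k k d * P.2 ^ 2 = aeval P.1 f} =
      {P : k × k // d * P.2 ^ 2 = f.eval P.1} := rfl
  rw [e1, card_aff hk f d hd, ← Nat.card_eq_fintype_card]
  ring

end

end Pool.Agent.H126T
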