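import Pool.Agent.H126T.LogB

/-! From correlations to orders. -/

set_option autoImplicit false

namespace Pool.Agent.H126T

open Complex Filter Topology Polynomial ComplexConjugate Pool.Agent.H341R2

variable (S : NormSys)

theorem log_inv_tendsto : Tendsto (fun ε : ℝ => Real.log (1 / ε)) (𝓝[>] 0) atTop := by
  have := Real.tendsto_log_nhdsGT_zero
  refine (tendsto_neg_atBot_atTop.comp this).congr fun ε => ?_
  simp

theorem final_bound {κ J : Type*} [DecidableEq κ] (T : Finset κ) (P : Finset J)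
    (t : J → S.X → ℂ) (v : J → κ → S.X → ℂ) (b : J → ℝ) (hb0 : ∀ j ∈ P, 0 < b j)
    (ht : ∀ j ∈ P, ∀ p, ‖t j p‖ ≤ b j) (hv : ∀ j k p, ‖v j k p‖ ≤ 1)
    (horth : ∀ j ∈ P, ∀ k ∈ T, ∀ l ∈ T, k ≠ l → S.Negl fun p => (v j k p * conj (v j l p)).re)
    (Lk : κ → ℝ → ℝ) (r : κ → ℝ)
    (h : ∀ k ∈ T, ∀ η : ℝ, 0 < η → ∀ᶠ ε : ℝ in 𝓝[>] 0,
      |Lk k ε - r k * S.lam ε - ∑ j ∈ P, S.E ε fun p => (t j p * conj (v j k p)).re| ≤
        η * S.lam ε)
    {η : ℝ} (hη : 0 < η) :
    ∀ᶠ ε : ℝ in 𝓝[>] 0,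
      ∑ k ∈ T, (Lk k ε / Real.log (1 / ε) - r k) ^ 2 ≤ (∑ j ∈ P, b j) ^ 2 + η := by
  set Bt : ℝ := ∑ j ∈ P, b j with hBt
  have hB : 0 ≤ Bt := Finset.sum_nonneg fun j hj => (hb0 j hj).le
  set D : κ → ℝ := fun k => 2 + |r k| + Bt with hD
  have hD0 : ∀ k, 0 < D k := fun k => by rw [hD]; positivity
  set M : ℝ := ∑ k ∈ T, D k * (2 * Bt + D k) with hM
  have hM0 : 0 ≤ M := Finset.sum_nonneg fun k _ => by have := hD0 k; positivity
  set δ : ℝ := min 1 (η / 2 / (M + 1)) with hδ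
  have hδ0 : 0 < δ := lt_min one_pos (by positivity)
  have hδ1 : δ ≤ 1 := min_le_left _ _
  have hδM : δ * M ≤ η / 2 := by
    have h1 : δ ≤ η / 2 / (M + 1) := min_le_right _ _
    have h2 : δ * (M + 1) ≤ η / 2 := by
      rwa [le_div_iff₀ (by positivity)] at h1
    nlinarith
  obtain ⟨C, hC⟩ := S.lam_bounded
  have ev1 : ∀ᶠ ε : ℝ in 𝓝[>] 0, ∀ k ∈ T,
      |Lk k ε - r k * S.lam ε - ∑ j ∈ P, S.E ε fun p => (t j p * conj (v j k p)).re| ≤
        δ * S.lam ε := by
    rw [Filter.eventually_all_finset]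
    exact fun k hk => h k hk δ hδ0
  have ev2 := multi_bessel S T P t v b hb0 ht hv horth (half_pos hη)
  filter_upwards [ev1, ev2, self_mem_nhdsWithin, S.lam_tendsto.eventually_gt_atTop 0, hC,
    log_inv_tendsto.eventually_ge_atTop (max 1 (C / δ))] with ε h1 h2 h3 hlam h4 h5
  have hε : (0 : ℝ) < ε := h3
  set L : ℝ := Real.log (1 / ε) with hL
  have hL1 : 1 ≤ L := (le_max_left _ _).trans h5
  have hLC : C ≤ δ * L := by
    have := (le_max_right 1 (C / δ)).trans h5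
    rw [div_le_iff₀ hδ0] at this
    linarith
  have hL0 : 0 < L := by linarith
  have hlog : Real.log ε = -L := by rw [hL, one_div, Real.log_inv, neg_neg]
  have hlL : |S.lam ε / L - 1| ≤ δ := by
    rw [hlog] at h4
    have : S.lam ε / L - 1 = (S.lam ε + -L) / L := by
      rw [add_div, neg_div, div_self hL0.ne', sub_eq_add_neg]
    rw [this, abs_div, abs_of_pos hL0, div_le_iff₀ hL0]
    exact h4.trans hLC
  set X : κ → ℝ := fun k => ∑ j ∈ P, S.E ε fun p => (t j p * conj (v j k p)).re with hX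
  have hXb : ∀ k, |X k| ≤ Bt * S.lam ε := by
    intro k
    refine (Finset.abs_sum_le_sum_abs _ _).trans ?_
    rw [hBt, Finset.sum_mul]
    refine Finset.sum_le_sum fun j hj => ?_
    have hb1 : ∀ p, |(t j p * conj (v j k p)).re| ≤ b j := by
      intro p
      refine (Complex.abs_re_le_norm _).trans ?_
      rw [norm_mul, Complex.norm_conj]
      calc ‖t j p‖ * ‖v j k p‖ ≤ b j * 1 :=
            mul_le_mul (ht j hj p) (hv j k p) (norm_nonneg _) (hb0 j hj).le
        _ = b j := mul_one _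
    rw [abs_le]
    constructor
    · have h3 := S.E_le hε (φ := fun p => (-1) * (t j p * conj (v j k p)).re) (B := b j)
        (b := b j) (fun p => by rw [abs_mul, abs_neg, abs_one, one_mul]; exact hb1 p)
        (fun p => by have := (abs_le.1 (hb1 p)).1; linarith)
      rw [S.E_const_mul] at h3
      linarith
    · exact S.E_le hε hb1 fun p => (le_abs_self _).trans (hb1 p)
  set u : κ → ℝ := fun k => X k / S.lam ε with hu
  have hub : ∀ k, |u k| ≤ Bt := by
    intro k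
    rw [hu]
    simp only
    rw [abs_div, abs_of_pos hlam, div_le_iff₀ hlam]
    exact hXb k
  have hz : ∀ k ∈ T, |(Lk k ε / L - r k) - u k| ≤ δ * D k := by
    intro k hk
    have e1 : (Lk k ε / L - r k) - u k =
        (Lk k ε - r k * S.lam ε - X k) / S.lam ε * (S.lam ε / L) + r k * (S.lam ε / L - 1) +
          u k * (S.lam ε / L - 1) := by
      rw [hu]
      simp only
      field_simp
      ring
    rw [e1]
    have e2 : |(Lk k ε - r k * S.lam ε - X k) / S.lam ε| ≤ δ := by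
      rw [abs_div, abs_of_pos hlam, div_le_iff₀ hlam]
      exact h1 k hk
    have e3 : |S.lam ε / L| ≤ 2 := by
      have := abs_le.1 hlL
      rw [abs_le]
      constructor <;> linarith
    refine (abs_add_le _ _).trans ?_
    refine (add_le_add ((abs_add_le _ _)) le_rfl).trans ?_
    rw [abs_mul, abs_mul, abs_mul, hD]
    have e4 : |(Lk k ε - r k * S.lam ε - X k) / S.lam ε| * |S.lam ε / L| ≤ δ * 2 :=
      mul_le_mul e2 e3 (abs_nonneg _) hδ0.le
    have e5 : |r k| * |S.lam ε / L - 1| ≤ |r k| * δ := mul_le_mul_of_nonneg_left hlL (abs_nonneg _)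
    have e6 : |u k| * |S.lam ε / L - 1| ≤ Bt * δ :=
      mul_le_mul (hub k) hlL (abs_nonneg _) hB
    simp only
    linarith
  have hsq : ∀ k ∈ T, (Lk k ε / L - r k) ^ 2 ≤ u k ^ 2 + δ * (D k * (2 * Bt + D k)) := by
    intro k hk
    set z := Lk k ε / L - r k with hzz
    have e1 : z ^ 2 = u k ^ 2 + (z - u k) * (2 * u k + (z - u k)) := by ring
    rw [e1]
    refine add_le_add le_rfl ((le_abs_self _).trans ?_)
    rw [abs_mul]
    have e2 : |2 * u k + (z - u k)| ≤ 2 * Bt + D k := by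
      refine (abs_add_le _ _).trans (add_le_add ?_ ?_)
      · rw [abs_mul, abs_two]
        linarith [hub k]
      · refine (hz k hk).trans ?_
        have := hD0 k
        nlinarith
    calc |z - u k| * |2 * u k + (z - u k)| ≤ (δ * D k) * (2 * Bt + D k) :=
          mul_le_mul (hz k hk) e2 (abs_nonneg _) (by have := hD0 k; positivity)
      _ = δ * (D k * (2 * Bt + D k)) := by ring
  have hu2 : ∑ k ∈ T, u k ^ 2 ≤ Bt ^ 2 + η / 2 := by
    have e1 : ∑ k ∈ T, u k ^ 2 = (∑ k ∈ T, X k ^ 2) / S.lam ε ^ 2 := by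
      rw [Finset.sum_div]
      refine Finset.sum_congr rfl fun k _ => ?_
      rw [hu]
      simp only
      rw [div_pow]
    rw [e1, div_le_iff₀ (by positivity)]
    exact h2
  calc ∑ k ∈ T, (Lk k ε / L - r k) ^ 2 ≤ ∑ k ∈ T, (u k ^ 2 + δ * (D k * (2 * Bt + D k))) :=
        Finset.sum_le_sum hsq
    _ = ∑ k ∈ T, u k ^ 2 + δ * M := by rw [Finset.sum_add_distrib, ← Finset.mul_sum, hM]
    _ ≤ Bt ^ 2 + η := by linarith

/-- the order of a continuation is read off from the size of the Euler product -/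
theorem order_limit {Λ : ℂ → ℂ} {ρ : ℂ} (hΛ : MeromorphicAt Λ ρ) (P : ℝ → ℂ)
    (hP : ∀ᶠ ε : ℝ in 𝓝[>] 0, P ε ≠ 0) (hΛP : ∀ᶠ ε : ℝ in 𝓝[>] 0, Λ (ρ + ε) = P ε) :
    ∃ m : ℤ, meromorphicOrderAt Λ ρ = m ∧
      Tendsto (fun ε : ℝ => Real.log ‖P ε‖ / Real.log (1 / ε)) (𝓝[>] 0) (𝓝 (-(m : ℝ))) := by
  have hfreq : ∃ᶠ z in 𝓝[≠] ρ, Λ z ≠ 0 := by
    have hpath : Tendsto (fun ε : ℝ => ρ + ε) (𝓝[>] 0) (𝓝[≠] ρ) := by
      rw [tendsto_nhdsWithin_iff]
      refine ⟨path_tendsto' ρ, ?_⟩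
      filter_upwards [self_mem_nhdsWithin] with ε hε
      have hε' : (0 : ℝ) < ε := hε
      simp only [Set.mem_compl_iff, Set.mem_singleton_iff, add_eq_left]
      exact_mod_cast hε'.ne'
    have h1 : ∀ᶠ ε : ℝ in 𝓝[>] 0, Λ (ρ + ε) ≠ 0 := by
      filter_upwards [hP, hΛP] with ε h1 h2
      rwa [h2]
    exact hpath.frequently h1.frequently
  have hnt : meromorphicOrderAt Λ ρ ≠ ⊤ := by
    rw [Ne, meromorphicOrderAt_eq_top_iff]
    intro h
    exact hfreq (h.mono fun z hz => not_not.2 hz)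
  obtain ⟨m, hm⟩ := WithTop.ne_top_iff_exists.1 hnt
  refine ⟨m, hm.symm, ?_⟩
  obtain ⟨C₂, hC₂⟩ := log_norm_meromorphic hΛ hm.symm
  rw [Metric.tendsto_nhds]
  intro η hη
  filter_upwards [hC₂, hΛP, log_inv_tendsto.eventually_ge_atTop (max 1 (2 * |C₂| / η))]
    with ε h1 h2 h3
  set L : ℝ := Real.log (1 / ε) with hL
  have hL1 : 1 ≤ L := (le_max_left _ _).trans h3
  have hL0 : 0 < L := by linarith
  have hlog : Real.log ε = -L := by rw [hL, one_div, Real.log_inv, neg_neg]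
  rw [h2, hlog] at h1
  rw [Real.dist_eq]
  have e1 : Real.log ‖P ε‖ / L - -(m : ℝ) = (Real.log ‖P ε‖ - m * -L) / L := by
    rw [sub_div, mul_neg, neg_div, mul_div_assoc, div_self hL0.ne', mul_one]
  rw [e1, abs_div, abs_of_pos hL0, div_lt_iff₀ hL0]
  have e2 : 2 * |C₂| ≤ η * L := by
    have := (le_max_right 1 (2 * |C₂| / η)).trans h3
    rw [div_le_iff₀ hη] at this
    linarith
  have e3 := h1.2.trans (le_abs_self C₂)
  have e4 : 0 < η * L := by positivity
  rcases (abs_nonneg C₂).eq_or_lt with h0 | h0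
  · linarith
  · linarith

end Pool.Agent.H126T
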