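import Pool.Agent.H341R2.NF.SysEuler
import Pool.Agent.H341R2.NF.Bessel2

/-! Size of Euler products near the edge, and the quadratic mean of several correlations. -/

set_option autoImplicit false

namespace Pool.Agent.H126T

open Complex Filter Topology Polynomial ComplexConjugate Pool.Agent.H341R2

variable (S : NormSys)

/-- size of an Euler product near the edge in terms of the mean of its coefficients -/
theorem log_norm {Good : S.X → Prop} [hdec : DecidablePred Good]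
    (hfin : {p | ¬ Good p}.Finite) (B : S.X → ℂ[X]) (ρ : ℂ)
    (hB : ∀ p, ¬ Good p → (B p).eval (((S.N p : ℕ) : ℂ) ^ (-ρ)) ≠ 0)
    (a : S.X → ℂ) {K : ℝ} (ha : ∀ p, ‖a p‖ ≤ K) (ha0 : ∀ p, ¬ Good p → a p = 0)
    (G : ℝ → S.X → ℂ) {C : ℝ}
    (hG : ∀ ε : ℝ, 0 < ε → ∀ p, Good p →
      ‖G ε p - a p * ((S.N p : ℝ) ^ (-(1 + ε)) : ℝ)‖ ≤ C * (S.N p : ℝ) ^ (-2 : ℝ)) :
    ∃ C' : ℝ, ∀ᶠ ε : ℝ in 𝓝[>] 0, (∏' p : S.X, if Good p then cexp (G ε p) else
      ((B p).eval (((S.N p : ℕ) : ℂ) ^ (-(ρ + ε))))⁻¹) ≠ 0 ∧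
      |(S.E ε fun p => (a p).re) - Real.log ‖∏' p : S.X, if Good p then cexp (G ε p) else
      ((B p).eval (((S.N p : ℕ) : ℂ) ^ (-(ρ + ε))))⁻¹‖| ≤ C' := by
  classical
  set T := hfin.toFinset with hS
  have hBcont : ∀ p : S.X, ContinuousAt (fun s : ℂ => (B p).eval (((S.N p : ℕ) : ℂ) ^ (-s))) ρ := by
    intro p
    have hpc : ((S.N p : ℕ) : ℂ) ≠ 0 := S.N_ne p
    have h2 : ContinuousAt (fun s : ℂ => ((S.N p : ℕ) : ℂ) ^ (-s)) ρ :=
      (continuousAt_const_cpow hpc).comp continuousAt_neg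
    exact (B p).continuous.continuousAt.comp h2
  have hBlog' : ∀ p, ∃ Cp : ℝ, ¬ Good p → ∀ᶠ ε : ℝ in 𝓝[>] 0,
      (B p).eval (((S.N p : ℕ) : ℂ) ^ (-(ρ + ε))) ≠ 0 ∧
      |Real.log ‖(B p).eval (((S.N p : ℕ) : ℂ) ^ (-(ρ + ε)))‖| ≤ Cp := by
    intro p
    by_cases hp : Good p
    · exact ⟨0, fun h => absurd hp h⟩
    · have h1 : Tendsto (fun ε : ℝ => (B p).eval (((S.N p : ℕ) : ℂ) ^ (-(ρ + ε)))) (𝓝[>] 0)
          (𝓝 ((B p).eval (((S.N p : ℕ) : ℂ) ^ (-ρ)))) := (hBcont p).tendsto.comp (path_tendsto' ρ)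
      have h2 := (h1.norm.log (norm_ne_zero_iff.2 (hB p hp))).abs.isBoundedUnder_le
      obtain ⟨Cp, hCp⟩ := h2
      refine ⟨Cp, fun _ => ?_⟩
      filter_upwards [h1.eventually_ne (hB p hp), Filter.eventually_map.1 hCp] with ε h3 h4
      exact ⟨h3, h4⟩
  choose Cb hCb using hBlog'
  have hbd : ∀ᶠ ε : ℝ in 𝓝[>] 0, ∀ p ∈ T,
      (B p).eval (((S.N p : ℕ) : ℂ) ^ (-(ρ + ε))) ≠ 0 ∧
      |Real.log ‖(B p).eval (((S.N p : ℕ) : ℂ) ^ (-(ρ + ε)))‖| ≤ Cb p := by
    rw [Filter.eventually_all_finset]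
    exact fun p hp => hCb p (hfin.mem_toFinset.1 hp)
  refine ⟨(∑ p ∈ T, Cb p) + |C| * S.K2, ?_⟩
  filter_upwards [hbd, self_mem_nhdsWithin] with ε h1 h3
  have hε : (0 : ℝ) < ε := h3
  obtain ⟨hsum, hbd2⟩ := S.summable_and_bound hε (G ε) a ha ha0 (hG ε hε)
  have h4 := S.tprod_split hfin (G ε)
    (fun p => ((B p).eval (((S.N p : ℕ) : ℂ) ^ (-(ρ + ε))))⁻¹) hsum
  rw [h4]
  have hprod : 0 < ∏ p ∈ T, ‖(B p).eval (((S.N p : ℕ) : ℂ) ^ (-(ρ + ε)))‖⁻¹ :=
    Finset.prod_pos fun p hp => inv_pos.2 (norm_pos_iff.2 (h1 p hp).1)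
  have hnorm : ‖(∏ p ∈ hfin.toFinset, ((B p).eval (((S.N p : ℕ) : ℂ) ^ (-(ρ + ε))))⁻¹) *
      cexp (∑' p, if Good p then G ε p else 0)‖ =
      (∏ p ∈ T, ‖(B p).eval (((S.N p : ℕ) : ℂ) ^ (-(ρ + ε)))‖⁻¹) *
      Real.exp (∑' p, if Good p then G ε p else 0).re := by
    rw [norm_mul, Complex.norm_exp, norm_prod]
    simp only [norm_inv, hS]
  have hpos : 0 < ‖(∏ p ∈ hfin.toFinset, ((B p).eval (((S.N p : ℕ) : ℂ) ^ (-(ρ + ε))))⁻¹) *
      cexp (∑' p, if Good p then G ε p else 0)‖ := by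
    rw [hnorm]
    exact mul_pos hprod (Real.exp_pos _)
  refine ⟨norm_pos_iff.1 hpos, ?_⟩
  have hlog : Real.log ‖(∏ p ∈ hfin.toFinset, ((B p).eval (((S.N p : ℕ) : ℂ) ^ (-(ρ + ε))))⁻¹) *
      cexp (∑' p, if Good p then G ε p else 0)‖ = (∑ p ∈ T,
      -Real.log ‖(B p).eval (((S.N p : ℕ) : ℂ) ^ (-(ρ + ε)))‖) +
        (∑' p, if Good p then G ε p else 0).re := by
    rw [hnorm, Real.log_mul hprod.ne' (Real.exp_pos _).ne', Real.log_exp, Real.log_prod]
    · congr 1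
      exact Finset.sum_congr rfl fun p _ => Real.log_inv _
    · intro p hp
      exact inv_ne_zero (norm_ne_zero_iff.2 (h1 p hp).1)
  have hC : |∑ p ∈ T, -Real.log ‖(B p).eval (((S.N p : ℕ) : ℂ) ^ (-(ρ + ε)))‖| ≤
      ∑ p ∈ T, Cb p := by
    refine (Finset.abs_sum_le_sum_abs _ _).trans (Finset.sum_le_sum fun p hp => ?_)
    rw [abs_neg]
    exact (h1 p hp).2
  rw [hlog]
  have h5 : (S.E ε fun p => (a p).re) - ((∑ p ∈ T,
      -Real.log ‖(B p).eval (((S.N p : ℕ) : ℂ) ^ (-(ρ + ε)))‖) +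
        (∑' p, if Good p then G ε p else 0).re) =
      -(∑ p ∈ T, -Real.log ‖(B p).eval (((S.N p : ℕ) : ℂ) ^ (-(ρ + ε)))‖) +
        -((∑' p, if Good p then G ε p else 0).re - (S.E ε fun p => (a p).re)) := by ring
  rw [h5]
  refine (abs_add_le _ _).trans (add_le_add ?_ ?_)
  · rwa [abs_neg]
  · rwa [abs_neg]

/-- functions with finite support contribute a bounded amount -/
theorem E_finsupp (T : Finset S.X) (r : S.X → ℝ) (hr : ∀ p, p ∉ T → r p = 0)
    (b : ℝ) (hb : ∀ p, |r p| ≤ b) {ε : ℝ} (hε : 0 < ε) : |S.E ε r| ≤ T.card * b := by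
  unfold NormSys.E
  rw [tsum_eq_sum (s := T) fun p hp => by rw [hr p hp, zero_mul]]
  refine (Finset.abs_sum_le_sum_abs _ _).trans ?_
  rw [← nsmul_eq_mul]
  refine Finset.sum_le_card_nsmul _ _ _ fun p _ => ?_
  have hp1 : (1 : ℝ) ≤ S.N p := by exact_mod_cast (by have := S.two_le p; omega : 1 ≤ S.N p)
  have h1 : (S.N p : ℝ) ^ (-(1 + ε)) ≤ 1 := Real.rpow_le_one_of_one_le_of_nonpos hp1 (by linarith)
  rw [abs_mul, abs_of_nonneg (S.w_nonneg ε p)]
  calc |r p| * (S.N p : ℝ) ^ (-(1 + ε)) ≤ |r p| * 1 :=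
        mul_le_mul_of_nonneg_left h1 (abs_nonneg _)
    _ ≤ b := by rw [mul_one]; exact hb p

theorem mean_diff {J : Type*} (P : Finset J) (T : Finset S.X) (a y : S.X → ℝ)
    (z : J → S.X → ℝ) (c A Y : ℝ) (Z : J → ℝ) (ha : ∀ p, |a p| ≤ A) (hy : ∀ p, |y p| ≤ Y)
    (hz : ∀ j ∈ P, ∀ p, |z j p| ≤ Z j)
    (heq : ∀ p, p ∉ T → a p = c * y p + ∑ j ∈ P, z j p) {ε : ℝ} (hε : 0 < ε) :
    |S.E ε a - c * S.E ε y - ∑ j ∈ P, S.E ε (z j)| ≤
      T.card * (A + (|c| * Y + ∑ j ∈ P, Z j)) := by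
  have h1 : ∀ p, |(-c) * y p| ≤ |c| * Y := by
    intro p
    rw [abs_mul, abs_neg]
    exact mul_le_mul_of_nonneg_left (hy p) (abs_nonneg _)
  have h2 : ∀ j ∈ P, ∀ p, |(-1) * z j p| ≤ Z j := by
    intro j hj p
    rw [abs_mul, abs_neg, abs_one, one_mul]
    exact hz j hj p
  have h3 : ∀ p, |∑ j ∈ P, (-1) * z j p| ≤ ∑ j ∈ P, Z j := fun p =>
    (Finset.abs_sum_le_sum_abs _ _).trans (Finset.sum_le_sum fun j hj => h2 j hj p)
  have h4 : ∀ p, |(-c) * y p + ∑ j ∈ P, (-1) * z j p| ≤ |c| * Y + ∑ j ∈ P, Z j := fun p =>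
    (abs_add_le _ _).trans (add_le_add (h1 p) (h3 p))
  have hE := E_finsupp S T (fun p => a p + ((-c) * y p + ∑ j ∈ P, (-1) * z j p))
    (by
      intro p hp
      rw [heq p hp, ← Finset.mul_sum]
      ring) (A + (|c| * Y + ∑ j ∈ P, Z j))
    (fun p => (abs_add_le _ _).trans (add_le_add (ha p) (h4 p))) hε
  rw [S.E_add hε ha h4, S.E_add hε h1 h3, S.E_const_mul,
    S.E_sum hε P (fun j p => (-1) * z j p) Z h2] at hE
  have h5 : ∀ j ∈ P, S.E ε (fun p => (-1) * z j p) = -S.E ε (z j) := by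
    intro j _
    rw [S.E_const_mul]
    ring
  rw [Finset.sum_congr rfl h5, Finset.sum_neg_distrib] at hE
  have h6 : S.E ε a - c * S.E ε y - ∑ j ∈ P, S.E ε (z j) =
      S.E ε a + (-c * S.E ε y + -∑ j ∈ P, S.E ε (z j)) := by ring
  rw [h6]
  exact hE

/-- Bessel's inequality for the sum of the correlations of several functions `t j`, each with its
own almost orthogonal family `v j k`. -/
theorem multi_bessel {κ J : Type*} [DecidableEq κ] (T : Finset κ) (P : Finset J)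
    (t : J → S.X → ℂ) (v : J → κ → S.X → ℂ) (b : J → ℝ) (hb0 : ∀ j ∈ P, 0 < b j)
    (ht : ∀ j ∈ P, ∀ p, ‖t j p‖ ≤ b j) (hv : ∀ j k p, ‖v j k p‖ ≤ 1)
    (horth : ∀ j ∈ P, ∀ k ∈ T, ∀ l ∈ T, k ≠ l → S.Negl fun p => (v j k p * conj (v j l p)).re)
    {η : ℝ} (hη : 0 < η) :
    ∀ᶠ ε : ℝ in 𝓝[>] 0,
      ∑ k ∈ T, (∑ j ∈ P, S.E ε fun p => (t j p * conj (v j k p)).re) ^ 2 ≤
        ((∑ j ∈ P, b j) ^ 2 + η) * S.lam ε ^ 2 := by
  rcases P.eq_empty_or_nonempty with rfl | hP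
  · filter_upwards with ε
    simp
    positivity
  set Bt : ℝ := ∑ j ∈ P, b j with hBt
  have hB : 0 < Bt := Finset.sum_pos hb0 hP
  set M : ℝ := (T.card : ℝ) ^ 2 * Bt ^ 2 + 1 with hM
  have hM0 : 0 < M := by positivity
  set δ : ℝ := η / M with hδ
  have hδ0 : 0 < δ := by positivity
  have ev1 : ∀ᶠ ε : ℝ in 𝓝[>] 0, ∀ j ∈ P, ∀ k ∈ T, ∀ l ∈ T, k ≠ l →
      |S.E ε fun p => (v j k p * conj (v j l p)).re| ≤ δ * S.lam ε := by
    rw [Filter.eventually_all_finset]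
    intro j hj
    rw [Filter.eventually_all_finset]
    intro k hk
    rw [Filter.eventually_all_finset]
    intro l hl
    by_cases hkl : k = l
    · exact Filter.Eventually.of_forall fun _ h => absurd hkl h
    · filter_upwards [horth j hj k hk l hl hkl δ hδ0] with ε h _
      exact h
  filter_upwards [ev1, self_mem_nhdsWithin, S.lam_tendsto.eventually_gt_atTop 0] with ε h1 h2 hlam
  have hε : (0 : ℝ) < ε := h2
  set x : κ → J → ℝ := fun k j => S.E ε fun p => (t j p * conj (v j k p)).re with hx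
  set y : κ → ℝ := fun k => (∑ j ∈ P, x k j) / S.lam ε with hy
  have hxb : ∀ k, ∀ j ∈ P, |x k j| ≤ b j * S.lam ε := by
    intro k j hj
    have hb1 : ∀ p, |(t j p * conj (v j k p)).re| ≤ b j := by
      intro p
      refine (Complex.abs_re_le_norm _).trans ?_
      rw [norm_mul, Complex.norm_conj]
      calc ‖t j p‖ * ‖v j k p‖ ≤ b j * 1 :=
            mul_le_mul (ht j hj p) (hv j k p) (norm_nonneg _) (hb0 j hj).le
        _ = b j := mul_one _
    rw [abs_le]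
    constructor
    · have h3 := S.E_le hε (φ := fun p => (-1) * (t j p * conj (v j k p)).re) (B := b j)
        (b := b j) (fun p => by rw [abs_mul, abs_neg, abs_one, one_mul]; exact hb1 p)
        (fun p => by have := (abs_le.1 (hb1 p)).1; linarith)
      rw [S.E_const_mul] at h3
      linarith
    · exact S.E_le hε hb1 fun p => (le_abs_self _).trans (hb1 p)
  have hyb : ∀ k, |y k| ≤ Bt := by
    intro k
    rw [hy]
    simp only
    rw [abs_div, abs_of_pos hlam, div_le_iff₀ hlam]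
    refine (Finset.abs_sum_le_sum_abs _ _).trans ?_
    rw [hBt, Finset.sum_mul]
    exact Finset.sum_le_sum fun j hj => hxb k j hj
  -- the inequality for each `j`
  have key : ∀ j ∈ P, 0 ≤ b j * Bt * S.lam ε - 2 * ∑ k ∈ T, y k * x k j +
      b j / Bt * (∑ k ∈ T, y k ^ 2) * S.lam ε +
      b j / Bt * ((T.card : ℝ) ^ 2 * Bt ^ 2 * δ) * S.lam ε := by
    intro j hj
    have hbj := hb0 j hj
    set c : ℝ := b j / Bt with hc
    have hc0 : 0 < c := by positivity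
    have h3 := S.bessel_ineq T (t j) (v j) (fun k => -(c * y k)) (b j) (ht j hj) (hv j) hε
    have hv1 : ∀ k l p, |(v j k p * conj (v j l p)).re| ≤ 1 := by
      intro k l p
      refine (Complex.abs_re_le_norm _).trans ?_
      rw [norm_mul, Complex.norm_conj]
      exact mul_le_one₀ (hv j k p) (norm_nonneg _) (hv j l p)
    have h4 : ∑ k ∈ T, ∑ l ∈ T, (-(c * y k) * -(c * y l)) *
        S.E ε (fun p => (v j k p * conj (v j l p)).re) ≤
        c ^ 2 * (∑ k ∈ T, y k ^ 2) * S.lam ε + c ^ 2 * ((T.card : ℝ) ^ 2 * Bt ^ 2 * δ) * S.lam ε := by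
      have h5 : ∀ k ∈ T, ∑ l ∈ T, (-(c * y k) * -(c * y l)) *
          S.E ε (fun p => (v j k p * conj (v j l p)).re) ≤
          c ^ 2 * y k ^ 2 * S.lam ε + T.card * (c ^ 2 * Bt ^ 2 * (δ * S.lam ε)) := by
        intro k hk
        rw [← Finset.add_sum_erase T _ hk]
        refine add_le_add ?_ ?_
        · have h6 := S.E_le hε (hv1 k k) (b := 1) fun p => (le_abs_self _).trans (hv1 k k p)
          rw [one_mul] at h6
          have h7 : 0 ≤ c ^ 2 * y k ^ 2 := by positivity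
          calc (-(c * y k) * -(c * y k)) * S.E ε (fun p => (v j k p * conj (v j k p)).re)
              = c ^ 2 * y k ^ 2 * S.E ε (fun p => (v j k p * conj (v j k p)).re) := by ring
            _ ≤ c ^ 2 * y k ^ 2 * S.lam ε := mul_le_mul_of_nonneg_left h6 h7
        · have h8 : ∀ l ∈ T.erase k, (-(c * y k) * -(c * y l)) *
              S.E ε (fun p => (v j k p * conj (v j l p)).re) ≤ c ^ 2 * Bt ^ 2 * (δ * S.lam ε) := by
            intro l hl
            rw [Finset.mem_erase] at hl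
            refine (le_abs_self _).trans ?_
            rw [abs_mul]
            refine mul_le_mul ?_ (h1 j hj k hk l hl.2 (Ne.symm hl.1)) (abs_nonneg _) (by positivity)
            have h9 : -(c * y k) * -(c * y l) = c ^ 2 * (y k * y l) := by ring
            rw [h9, abs_mul, abs_of_pos (by positivity : 0 < c ^ 2), abs_mul, sq Bt]
            exact mul_le_mul_of_nonneg_left (mul_le_mul (hyb k) (hyb l) (abs_nonneg _) hB.le)
              (by positivity)
          refine (Finset.sum_le_card_nsmul _ _ _ h8).trans ?_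
          rw [nsmul_eq_mul]
          refine mul_le_mul_of_nonneg_right ?_ (by positivity)
          exact_mod_cast Finset.card_le_card (Finset.erase_subset k T)
      refine (Finset.sum_le_sum h5).trans (le_of_eq ?_)
      rw [Finset.sum_add_distrib, Finset.sum_const, nsmul_eq_mul, ← Finset.sum_mul,
        ← Finset.mul_sum]
      ring
    have h10 : ∑ k ∈ T, 2 * (-(c * y k) * S.E ε (fun p => (t j p * conj (v j k p)).re)) =
        -(2 * c) * ∑ k ∈ T, y k * x k j := by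
      rw [Finset.mul_sum]
      refine Finset.sum_congr rfl fun k _ => ?_
      rw [hx]
      ring
    rw [h10] at h3
    have h11 : 0 ≤ b j ^ 2 * S.lam ε + (-(2 * c) * ∑ k ∈ T, y k * x k j +
        (c ^ 2 * (∑ k ∈ T, y k ^ 2) * S.lam ε +
          c ^ 2 * ((T.card : ℝ) ^ 2 * Bt ^ 2 * δ) * S.lam ε)) := by
      refine h3.trans ?_
      gcongr
    have h12 : c * (b j * Bt * S.lam ε - 2 * ∑ k ∈ T, y k * x k j +
        c * (∑ k ∈ T, y k ^ 2) * S.lam ε +
        c * ((T.card : ℝ) ^ 2 * Bt ^ 2 * δ) * S.lam ε) =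
        b j ^ 2 * S.lam ε + (-(2 * c) * ∑ k ∈ T, y k * x k j +
        (c ^ 2 * (∑ k ∈ T, y k ^ 2) * S.lam ε +
          c ^ 2 * ((T.card : ℝ) ^ 2 * Bt ^ 2 * δ) * S.lam ε)) := by
      have : c * (b j * Bt) = b j ^ 2 := by
        rw [hc]
        field_simp
      linear_combination S.lam ε * this
    rw [← h12] at h11
    exact nonneg_of_mul_nonneg_right h11 hc0
  have hsum := Finset.sum_nonneg key
  rw [Finset.sum_add_distrib, Finset.sum_add_distrib, Finset.sum_sub_distrib, ← Finset.mul_sum,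
    Finset.sum_comm, ← Finset.sum_mul, ← Finset.sum_mul, ← Finset.sum_mul, ← Finset.sum_mul,
    ← Finset.sum_mul, ← Finset.sum_mul, ← Finset.sum_div, ← hBt, div_self hB.ne'] at hsum
  have h13 : ∀ k ∈ T, ∑ j ∈ P, y k * x k j = y k ^ 2 * S.lam ε := by
    intro k _
    rw [← Finset.mul_sum, hy]
    simp only
    field_simp
  rw [Finset.sum_congr rfl h13, ← Finset.sum_mul] at hsum
  have h14 : (∑ k ∈ T, y k ^ 2) * S.lam ε ≤ (Bt ^ 2 + (T.card : ℝ) ^ 2 * Bt ^ 2 * δ) * S.lam ε := by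
    linarith
  have h15 := le_of_mul_le_mul_right h14 hlam
  have h16 : (T.card : ℝ) ^ 2 * Bt ^ 2 * δ ≤ η := by
    have : M * δ = η := by
      rw [hδ]
      field_simp
    have h17 : M * δ = (T.card : ℝ) ^ 2 * Bt ^ 2 * δ + δ := by
      rw [hM]
      ring
    linarith
  have h18 : ∑ k ∈ T, (∑ j ∈ P, x k j) ^ 2 = (∑ k ∈ T, y k ^ 2) * S.lam ε ^ 2 := by
    rw [Finset.sum_mul]
    refine Finset.sum_congr rfl fun k _ => ?_
    rw [hy]
    simp only
    field_simp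
  rw [h18]
  refine mul_le_mul_of_nonneg_right ?_ (by positivity)
  linarith

end Pool.Agent.H126T
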