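import Pool.Agent.H126T.Field
import Pool.Agent.H126T.Final
import Pool.Agent.H341R2.NF.TwistOrders

/-! The `L`-function of `H²` of products of quadratic twists of hyperelliptic curves over a number
field. -/

set_option autoImplicit false

namespace Pool.Agent.H126T

open NumberField IsDedekindDomain Pool.Agent.H341R2 Pool.Agent.H341R2.EC
open Pool.Agent.H921R2.TatePole (nm two_le_nm)
open Complex Filter Topology Polynomial ComplexConjugate

variable {K : Type} [Field K] [NumberField K]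

/-- trace of `Frob^m` on `H¹` of `d y² = f(x)` at `v` -/
noncomputable def traceH1 (v : HeightOneSpectrum (𝓞 K)) (f : (𝓞 K)[X]) (d : 𝓞 K) (m : ℕ) : ℤ :=
  (nm v : ℤ) ^ m + 1 - (affPts (𝓞 K ⧸ v.asIdeal) (f.map (Ideal.Quotient.mk v.asIdeal))
    (Ideal.Quotient.mk v.asIdeal d) m + 1)

/-- the pairs `i < j` -/
def pairs (r : ℕ) : Finset (Fin r × Fin r) := Finset.univ.filter fun p => p.1 < p.2

/-- trace of `Frob^m` on `H²` of the product of the curves `d i y² = f i (x)` -/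
noncomputable def traceH2 {r : ℕ} (v : HeightOneSpectrum (𝓞 K)) (f : Fin r → (𝓞 K)[X])
    (d : Fin r → 𝓞 K) (m : ℕ) : ℤ :=
  r * (nm v : ℤ) ^ m +
    ∑ p ∈ pairs r, traceH1 v (f p.1) (d p.1) m * traceH1 v (f p.2) (d p.2) m

/-- the character sum -/
noncomputable def Sv (f : (𝓞 K)[X]) (v : HeightOneSpectrum (𝓞 K)) : ℤ :=
  ∑ x : 𝓞 K ⧸ v.asIdeal, quadraticChar (𝓞 K ⧸ v.asIdeal)
    ((f.map (Ideal.Quotient.mk v.asIdeal)).eval x)

theorem char_v {v : HeightOneSpectrum (𝓞 K)} (h2 : (2 : 𝓞 K) ∉ v.asIdeal) :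
    ringChar (𝓞 K ⧸ v.asIdeal) ≠ 2 := by
  intro h
  have h1 := mk_ne h2
  apply h1
  have := ringChar.Nat.cast_ringChar (R := 𝓞 K ⧸ v.asIdeal)
  rw [h] at this
  rw [map_ofNat]
  exact_mod_cast this

theorem natDegree_red {v : HeightOneSpectrum (𝓞 K)} {f : (𝓞 K)[X]}
    (hf : f.leadingCoeff ∉ v.asIdeal) :
    (f.map (Ideal.Quotient.mk v.asIdeal)).natDegree = f.natDegree :=
  natDegree_map_of_leadingCoeff_ne_zero _ (mk_ne hf)

theorem traceH1_bound {v : HeightOneSpectrum (𝓞 K)} {f : (𝓞 K)[X]} (hodd : Odd f.natDegree)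
    {d : 𝓞 K} (h2 : (2 : 𝓞 K) ∉ v.asIdeal) (hf : f.leadingCoeff ∉ v.asIdeal)
    (hd : d ∉ v.asIdeal) (m : ℕ) (hm : m ≠ 0) :
    |(traceH1 v f d m : ℝ)| ≤ (f.natDegree - 1) * Real.sqrt ((nm v : ℝ) ^ m) := by
  have h := trace_bound (char_v h2) (f.map (Ideal.Quotient.mk v.asIdeal))
    (by rw [natDegree_red hf]; exact hodd) (Ideal.Quotient.mk v.asIdeal d) (mk_ne hd) m hm
  rw [natDegree_red hf] at h
  exact h

theorem traceH1_one {v : HeightOneSpectrum (𝓞 K)} {f : (𝓞 K)[X]}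
    {d : 𝓞 K} (h2 : (2 : 𝓞 K) ∉ v.asIdeal) (hd : d ∉ v.asIdeal) :
    traceH1 v f d 1 = -(chi d v * Sv f v) :=
  trace_one (char_v h2) (f.map (Ideal.Quotient.mk v.asIdeal)) (Ideal.Quotient.mk v.asIdeal d)
    (mk_ne hd)

theorem Sv_bound {v : HeightOneSpectrum (𝓞 K)} {f : (𝓞 K)[X]} (hodd : Odd f.natDegree)
    (h2 : (2 : 𝓞 K) ∉ v.asIdeal) (hf : f.leadingCoeff ∉ v.asIdeal) :
    |(Sv f v : ℝ)| ≤ (f.natDegree - 1) * Real.sqrt (nm v) := by
  have h1 : (1 : 𝓞 K) ∉ v.asIdeal := fun h => v.isPrime.ne_top ((Ideal.eq_top_iff_one _).2 h)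
  have h := traceH1_bound hodd h2 hf h1 1 one_ne_zero
  rw [traceH1_one h2 h1, pow_one] at h
  have h3 : chi (1 : 𝓞 K) v = 1 := by
    unfold chi
    rw [map_one, map_one]
  rw [h3, one_mul] at h
  push_cast at h
  rwa [abs_neg] at h

/-- the constant of a pair -/
noncomputable def bb {r : ℕ} (f : Fin r → (𝓞 K)[X]) (p : Fin r × Fin r) : ℝ :=
  ((f p.1).natDegree - 1) * ((f p.2).natDegree - 1)

theorem bb_pos {r : ℕ} {f : Fin r → (𝓞 K)[X]} (h3 : ∀ i, 3 ≤ (f i).natDegree)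
    (p : Fin r × Fin r) : 0 < bb f p := by
  unfold bb
  have h1 : (3 : ℝ) ≤ (f p.1).natDegree := by exact_mod_cast h3 p.1
  have h2 : (3 : ℝ) ≤ (f p.2).natDegree := by exact_mod_cast h3 p.2
  exact mul_pos (by linarith) (by linarith)

theorem prod_bound {r : ℕ} {f : Fin r → (𝓞 K)[X]} (h3 : ∀ i, 3 ≤ (f i).natDegree)
    (p : Fin r × Fin r) {x y : ℝ} {q : ℝ} (hq : 0 ≤ q)
    (hx : |x| ≤ ((f p.1).natDegree - 1) * Real.sqrt q)
    (hy : |y| ≤ ((f p.2).natDegree - 1) * Real.sqrt q) : |x * y| ≤ bb f p * q := by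
  have h2 : (3 : ℝ) ≤ (f p.1).natDegree := by exact_mod_cast h3 p.1
  rw [abs_mul]
  refine (mul_le_mul hx hy (abs_nonneg _)
    (mul_nonneg (by linarith) (Real.sqrt_nonneg _))).trans (le_of_eq ?_)
  unfold bb
  have := Real.mul_self_sqrt hq
  linear_combination (((f p.1).natDegree : ℝ) - 1) * (((f p.2).natDegree : ℝ) - 1) * this

/-- all conditions at a good prime -/
def Gd {r : ℕ} (f : Fin r → (𝓞 K)[X]) (d : Fin r → 𝓞 K) (v : HeightOneSpectrum (𝓞 K)) : Prop :=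
  ∀ i, (2 : 𝓞 K) ∉ v.asIdeal ∧ d i ∉ v.asIdeal ∧ (f i).leadingCoeff ∉ v.asIdeal

theorem traceH2_bound {r : ℕ} {f : Fin r → (𝓞 K)[X]} (hodd : ∀ i, Odd (f i).natDegree)
    (h3 : ∀ i, 3 ≤ (f i).natDegree) {d : Fin r → 𝓞 K} {v : HeightOneSpectrum (𝓞 K)}
    (hg : Gd f d v) (m : ℕ) (hm : m ≠ 0) :
    |(traceH2 v f d m : ℝ)| ≤ (r + ∑ p ∈ pairs r, bb f p) * (nm v : ℝ) ^ m := by
  unfold traceH2
  push_cast
  have hq : (0 : ℝ) ≤ (nm v : ℝ) ^ m := by positivity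
  refine (abs_add_le _ _).trans ?_
  rw [add_mul, Finset.sum_mul]
  refine add_le_add ?_ ((Finset.abs_sum_le_sum_abs _ _).trans (Finset.sum_le_sum fun p _ => ?_))
  · rw [abs_of_nonneg (by positivity)]
  · exact prod_bound h3 p hq
      (traceH1_bound (hodd _) (hg p.1).1 (hg p.1).2.2 (hg p.1).2.1 m hm)
      (traceH1_bound (hodd _) (hg p.2).1 (hg p.2).2.2 (hg p.2).2.1 m hm)

open Classical in
/-- the untwisted coefficients -/
noncomputable def tt {r : ℕ} (f : Fin r → (𝓞 K)[X]) (p : Fin r × Fin r)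
    (v : HeightOneSpectrum (𝓞 K)) : ℂ :=
  if (2 : 𝓞 K) ∉ v.asIdeal ∧ (f p.1).leadingCoeff ∉ v.asIdeal ∧ (f p.2).leadingCoeff ∉ v.asIdeal
    then ((Sv (f p.1) v * Sv (f p.2) v : ℤ) : ℂ) * ((nm v : ℕ) : ℂ)⁻¹ else 0

/-- the characters -/
noncomputable def ww {r : ℕ} (d : Fin r → 𝓞 K) (τ : ℝ) (p : Fin r × Fin r)
    (v : HeightOneSpectrum (𝓞 K)) : ℂ :=
  (chi (d p.1 * d p.2) v : ℂ) * ((nm v : ℕ) : ℂ) ^ ((τ : ℂ) * I)

theorem nm_pos' (v : HeightOneSpectrum (𝓞 K)) : (0 : ℝ) < nm v := (sysK K).N_pos v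

theorem norm_tt {r : ℕ} {f : Fin r → (𝓞 K)[X]} (hodd : ∀ i, Odd (f i).natDegree)
    (h3 : ∀ i, 3 ≤ (f i).natDegree) (p : Fin r × Fin r) (v : HeightOneSpectrum (𝓞 K)) :
    ‖tt f p v‖ ≤ bb f p := by
  unfold tt
  split_ifs with h
  · have h1 := prod_bound h3 p (nm_pos' v).le (Sv_bound (hodd _) h.1 h.2.1)
      (Sv_bound (hodd _) h.1 h.2.2)
    rw [norm_mul, Complex.norm_intCast, norm_inv, Complex.norm_natCast]
    push_cast
    rwa [← div_eq_mul_inv, div_le_iff₀ (nm_pos' v)]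
  · rw [norm_zero]
    exact (bb_pos h3 p).le

theorem norm_ww {r : ℕ} (d : Fin r → 𝓞 K) (τ : ℝ) (p : Fin r × Fin r)
    (v : HeightOneSpectrum (𝓞 K)) : ‖ww d τ p v‖ ≤ 1 := by
  unfold ww
  rw [norm_mul, Complex.norm_intCast]
  have : ‖((nm v : ℕ) : ℂ) ^ ((τ : ℂ) * I)‖ = 1 := (sysK K).norm_cpow_I v τ
  rw [this, mul_one]
  exact chi_abs _ v

theorem ww_orth {r : ℕ} {d e : Fin r → 𝓞 K} (hd : ∀ i, d i ≠ 0) (he : ∀ i, e i ≠ 0) {τ σ : ℝ}
    (p : Fin r × Fin r)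
    (h : IsSquare ((d p.1 * d p.2 * e p.1 * e p.2 : 𝓞 K) : K) → τ ≠ σ) :
    (sysK K).Negl fun v => (ww d τ p v * conj (ww e σ p v)).re := by
  have hne : d p.1 * d p.2 * (e p.1 * e p.2) ≠ 0 :=
    mul_ne_zero (mul_ne_zero (hd _) (hd _)) (mul_ne_zero (he _) (he _))
  have h1 : ¬ IsSquare ((d p.1 * d p.2 * (e p.1 * e p.2) : 𝓞 K) : K) ∨ σ - τ ≠ 0 := by
    by_cases h2 : IsSquare ((d p.1 * d p.2 * (e p.1 * e p.2) : 𝓞 K) : K)
    · rw [← mul_assoc] at h2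
      exact Or.inr (sub_ne_zero.2 (h h2).symm)
    · exact Or.inl h2
  have h3 := negl_chi hne (σ - τ) h1
  have h4 : ∀ v : HeightOneSpectrum (𝓞 K), (ww d τ p v * conj (ww e σ p v)).re =
      (chi (d p.1 * d p.2 * (e p.1 * e p.2)) v : ℝ) *
        (((nm v : ℕ) : ℂ) ^ (-(((σ - τ : ℝ) : ℂ) * I))).re := by
    intro v
    unfold ww
    rw [conj_w, orth_eq, Complex.re_ofReal_mul]
  intro η hη
  filter_upwards [h3 η hη] with ε h5
  have h6 : (sysK K).E ε (fun v => (ww d τ p v * conj (ww e σ p v)).re) =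
      (sysK K).E ε (fun v => (chi (d p.1 * d p.2 * (e p.1 * e p.2)) v : ℝ) *
        (((nm v : ℕ) : ℂ) ^ (-(((σ - τ : ℝ) : ℂ) * I))).re) :=
    congrArg ((sysK K).E ε) (funext h4)
  rw [h6]
  exact h5

open Classical in
/-- the normalized coefficients -/
noncomputable def aa {r : ℕ} (f : Fin r → (𝓞 K)[X]) (d : Fin r → 𝓞 K)
    (S : Finset (HeightOneSpectrum (𝓞 K))) (τ : ℝ) (v : HeightOneSpectrum (𝓞 K)) : ℂ :=
  if v ∉ S then (traceH2 v f d 1 : ℂ) * ((nm v : ℕ) : ℂ)⁻¹ * ((nm v : ℕ) : ℂ) ^ (-((τ : ℂ) * I))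
    else 0

theorem norm_cpow_neg (v : HeightOneSpectrum (𝓞 K)) (τ : ℝ) :
    ‖((nm v : ℕ) : ℂ) ^ (-((τ : ℂ) * I))‖ = 1 := by
  have := (sysK K).norm_cpow_I v (-τ)
  rw [Complex.ofReal_neg, neg_mul] at this
  exact this

theorem norm_aa {r : ℕ} {f : Fin r → (𝓞 K)[X]} (hodd : ∀ i, Odd (f i).natDegree)
    (h3 : ∀ i, 3 ≤ (f i).natDegree) {d : Fin r → 𝓞 K} {S : Finset (HeightOneSpectrum (𝓞 K))}
    (hS : ∀ v, v ∉ S → Gd f d v) (τ : ℝ) (v : HeightOneSpectrum (𝓞 K)) :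
    ‖aa f d S τ v‖ ≤ r + ∑ p ∈ pairs r, bb f p := by
  have hb : 0 ≤ ∑ p ∈ pairs r, bb f p := Finset.sum_nonneg fun p _ => (bb_pos h3 p).le
  unfold aa
  by_cases h : v ∉ S
  · rw [if_pos h]
    have h1 := traceH2_bound hodd h3 (hS v h) 1 one_ne_zero
    rw [pow_one] at h1
    rw [norm_mul, norm_mul, norm_cpow_neg, mul_one, Complex.norm_intCast, norm_inv,
      Complex.norm_natCast, ← div_eq_mul_inv, div_le_iff₀ (nm_pos' v)]
    exact h1
  · rw [if_neg h, norm_zero]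
    positivity

theorem aa_eq {r : ℕ} {f : Fin r → (𝓞 K)[X]} {d : Fin r → 𝓞 K}
    {S : Finset (HeightOneSpectrum (𝓞 K))} (hS : ∀ v, v ∉ S → Gd f d v) (τ : ℝ)
    {v : HeightOneSpectrum (𝓞 K)} (hv : v ∉ S) :
    (aa f d S τ v).re = r * (((nm v : ℕ) : ℂ) ^ (-((τ : ℂ) * I))).re +
      ∑ p ∈ pairs r, (tt f p v * conj (ww d τ p v)).re := by
  have hg := hS v hv
  have h0 : ((nm v : ℕ) : ℂ) ≠ 0 := (sysK K).N_ne v
  have h1 : aa f d S τ v = r * ((nm v : ℕ) : ℂ) ^ (-((τ : ℂ) * I)) +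
      ∑ p ∈ pairs r, tt f p v * conj (ww d τ p v) := by
    unfold aa
    rw [if_pos hv]
    unfold traceH2
    push_cast
    rw [pow_one, add_mul, add_mul, Finset.sum_mul, Finset.sum_mul]
    congr 1
    · field_simp
    · refine Finset.sum_congr rfl fun p _ => ?_
      rw [traceH1_one (hg p.1).1 (hg p.1).2.1, traceH1_one (hg p.2).1 (hg p.2).2.1]
      unfold tt ww
      rw [if_pos ⟨(hg p.1).1, (hg p.1).2.2, (hg p.2).2.2⟩, conj_w, chi_mul]
      push_cast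
      ring
  rw [h1, Complex.add_re, Complex.re_sum]
  congr 1
  have : (r : ℂ) = ((r : ℝ) : ℂ) := by push_cast; rfl
  rw [this, Complex.re_ofReal_mul]

/-- the mean of the coefficients -/
theorem mean_aa {r : ℕ} {f : Fin r → (𝓞 K)[X]} (hodd : ∀ i, Odd (f i).natDegree)
    (h3 : ∀ i, 3 ≤ (f i).natDegree) {d : Fin r → 𝓞 K} {S : Finset (HeightOneSpectrum (𝓞 K))}
    (hS : ∀ v, v ∉ S → Gd f d v) (τ : ℝ) {η : ℝ} (hη : 0 < η) :
    ∀ᶠ ε : ℝ in 𝓝[>] 0, |(sysK K).E ε (fun v => (aa f d S τ v).re) -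
      (if τ = 0 then (r : ℝ) else 0) * (sysK K).lam ε -
      ∑ p ∈ pairs r, (sysK K).E ε fun v => (tt f p v * conj (ww d τ p v)).re| ≤
        η * (sysK K).lam ε := by
  classical
  set Bt := ∑ p ∈ pairs r, bb f p with hBt
  have hb : 0 ≤ Bt := Finset.sum_nonneg fun p _ => (bb_pos h3 p).le
  have hb1 : ∀ p v, |(tt f p v * conj (ww d τ p v)).re| ≤ bb f p := fun p v => by
    refine (Complex.abs_re_le_norm _).trans ?_
    rw [norm_mul, Complex.norm_conj]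
    exact (mul_le_of_le_one_right (norm_nonneg _) (norm_ww _ _ p v)).trans
      (norm_tt hodd h3 p v)
  have hb2 : ∀ v : HeightOneSpectrum (𝓞 K), |(((nm v : ℕ) : ℂ) ^ (-((τ : ℂ) * I))).re| ≤ 1 :=
    fun v => (Complex.abs_re_le_norm _).trans (norm_cpow_neg v τ).le
  have hb3 : ∀ v, |(aa f d S τ v).re| ≤ r + Bt := fun v =>
    (Complex.abs_re_le_norm _).trans (norm_aa hodd h3 hS τ v)
  have hmean : ∀ᶠ ε : ℝ in 𝓝[>] 0,
      |(r : ℝ) * (sysK K).E ε (fun v => (((nm v : ℕ) : ℂ) ^ (-((τ : ℂ) * I))).re) -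
        (if τ = 0 then (r : ℝ) else 0) * (sysK K).lam ε| ≤ η / 2 * (sysK K).lam ε := by
    by_cases hτ : τ = 0
    · filter_upwards [(sysK K).lam_tendsto.eventually_gt_atTop 0] with ε h1
      have e1 : (sysK K).E ε (fun v => (((nm v : ℕ) : ℂ) ^ (-((τ : ℂ) * I))).re) =
          (sysK K).lam ε := by
        unfold NormSys.E NormSys.lam
        refine tsum_congr fun v => ?_
        rw [hτ]
        simp
      rw [e1, if_pos hτ, sub_self, abs_zero]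
      positivity
    · have h1 := negl_chi (K := K) (d := 1) one_ne_zero τ (Or.inr hτ) (η / 2 / (r + 1))
        (by positivity)
      filter_upwards [h1, (sysK K).lam_tendsto.eventually_gt_atTop 0] with ε h2 h3
      have e1 : ∀ v : HeightOneSpectrum (𝓞 K), (chi (1 : 𝓞 K) v : ℝ) *
          (((nm v : ℕ) : ℂ) ^ (-((τ : ℂ) * I))).re =
          (((nm v : ℕ) : ℂ) ^ (-((τ : ℂ) * I))).re := by
        intro v
        have : chi (1 : 𝓞 K) v = 1 := by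
          unfold chi
          rw [map_one, map_one]
        rw [this]
        simp
      have e2 : (sysK K).E ε (fun v => (chi (1 : 𝓞 K) v : ℝ) *
          (((nm v : ℕ) : ℂ) ^ (-((τ : ℂ) * I))).re) =
          (sysK K).E ε (fun v => (((nm v : ℕ) : ℂ) ^ (-((τ : ℂ) * I))).re) :=
        congrArg ((sysK K).E ε) (funext e1)
      have h2' : |(sysK K).E ε (fun v => (((nm v : ℕ) : ℂ) ^ (-((τ : ℂ) * I))).re)| ≤
          η / 2 / (r + 1) * (sysK K).lam ε := by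
        rw [← e2]
        exact h2
      rw [if_neg hτ, zero_mul, sub_zero, abs_mul, abs_of_nonneg (by positivity : (0 : ℝ) ≤ r)]
      calc (r : ℝ) * |(sysK K).E ε (fun v => (((nm v : ℕ) : ℂ) ^ (-((τ : ℂ) * I))).re)|
          ≤ r * (η / 2 / (r + 1) * (sysK K).lam ε) :=
            mul_le_mul_of_nonneg_left h2' (by positivity)
        _ = (r / (r + 1)) * (η / 2 * (sysK K).lam ε) := by ring
        _ ≤ 1 * (η / 2 * (sysK K).lam ε) := by
            refine mul_le_mul_of_nonneg_right ?_ (by positivity)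
            rw [div_le_one (by positivity)]
            linarith
        _ = η / 2 * (sysK K).lam ε := one_mul _
  filter_upwards [hmean, self_mem_nhdsWithin,
    (sysK K).lam_tendsto.eventually_ge_atTop
      (2 / η * (S.card * ((r + Bt) + (|(r : ℝ)| * 1 + Bt))))] with ε h1 h2 h4
  have hε : (0 : ℝ) < ε := h2
  have hE := mean_diff (sysK K) (pairs r) S (fun v => (aa f d S τ v).re)
    (fun v => (((nm v : ℕ) : ℂ) ^ (-((τ : ℂ) * I))).re)
    (fun p v => (tt f p v * conj (ww d τ p v)).re) r (r + Bt) 1 (bb f) hb3 hb2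
    (fun p _ v => hb1 p v) (fun v hv => aa_eq hS τ hv) hε
  have e2 : (S.card : ℝ) * ((r + Bt) + (|(r : ℝ)| * 1 + Bt)) ≤ η / 2 * (sysK K).lam ε := by
    have := mul_le_mul_of_nonneg_left h4 (by positivity : 0 ≤ η / 2)
    have e3 : η / 2 * (2 / η * (S.card * ((r + Bt) + (|(r : ℝ)| * 1 + Bt)))) =
        (S.card : ℝ) * ((r + Bt) + (|(r : ℝ)| * 1 + Bt)) := by
      field_simp
    rwa [e3] at this
  have e4 := hE.trans e2
  have e5 : ∀ x y z w l : ℝ, |x - y - z| ≤ η / 2 * l → |y - w| ≤ η / 2 * l →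
      |x - w - z| ≤ η * l := by
    intro x y z w l h5 h6
    have e6 : x - w - z = (x - y - z) + (y - w) := by ring
    rw [e6]
    refine (abs_add_le _ _).trans ?_
    linarith
  exact e5 _ _ _ _ _ e4 h1

end Pool.Agent.H126T
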